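import Pool.Agent.helper58.CRO.SpecD

/-!
# Project cro, row TRN: transition maps between charts
-/

open scoped Manifold ContDiff Topology ENNReal
open MeasureTheory Set Bundle

noncomputable section

namespace Pool.Agent.CRO

universe u

theorem TRN_smooth {n : ℕ} {M : Type u} [TopologicalSpace M] [ChartedSpace (En n) M]
    [IsManifold (𝓡 n) ∞ M] {e e' : OpenPartialHomeomorph M (En n)}
    (he : e ∈ IsManifold.maximalAtlas (𝓡 n) ∞ M) (he' : e' ∈ IsManifold.maximalAtlas (𝓡 n) ∞ M)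
    {x : M} (hx : x ∈ e.source) (hx' : x ∈ e'.source) :
    ContDiffAt ℝ ∞ (fun y => e' (e.symm y)) (e x) := by
  have h1 : ContMDiffAt (𝓡 n) (𝓡 n) ∞ e.symm (e x) :=
    contMDiffAt_symm_of_mem_maximalAtlas he (e.map_source hx)
  have h2 : ContMDiffAt (𝓡 n) (𝓡 n) ∞ e' (e.symm (e x)) := by
    rw [e.left_inv hx]
    exact contMDiffAt_of_mem_maximalAtlas he' hx'
  have h3 : ContMDiffAt (𝓡 n) (𝓡 n) ∞ (fun y => e' (e.symm y)) (e x) := h2.comp (e x) h1
  exact contMDiffAt_iff_contDiffAt.1 h3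

theorem TRN_inv {n : ℕ} {M : Type u} [TopologicalSpace M]
    {e e' : OpenPartialHomeomorph M (En n)}
    {x : M} (hx : x ∈ e.source) (hx' : x ∈ e'.source) :
    ∀ᶠ y in 𝓝 (e x), e (e'.symm (e' (e.symm y))) = y := by
  have h1 : ∀ᶠ y in 𝓝 (e x), y ∈ e.target := e.open_target.mem_nhds (e.map_source hx)
  have h2 : ∀ᶠ y in 𝓝 (e x), e.symm y ∈ e'.source := by
    apply e.symm.continuousAt (e.map_source hx)
    rw [e.left_inv hx]
    exact e'.open_source.mem_nhds hx'
  filter_upwards [h1, h2] with y hy1 hy2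
  rw [e'.left_inv hy2, e.right_inv hy1]

theorem TRN_comp {n : ℕ} {M : Type u} [TopologicalSpace M]
    {e e' : OpenPartialHomeomorph M (En n)} {x : M} (hx : x ∈ e.source) (hx' : x ∈ e'.source)
    {A B : En n →L[ℝ] En n} (hA : HasFDerivAt (fun y => e' (e.symm y)) A (e x))
    (hB : HasFDerivAt (fun y => e (e'.symm y)) B (e' x)) (v : En n) : B (A v) = v := by
  have h1 : (fun y => e' (e.symm y)) (e x) = e' x := by
    show e' (e.symm (e x)) = e' x
    rw [e.left_inv hx]
  have h2 : HasFDerivAt (fun y => e (e'.symm (e' (e.symm y)))) (B.comp A) (e x) := by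
    have hB' : HasFDerivAt (fun y => e (e'.symm y)) B ((fun y => e' (e.symm y)) (e x)) := by
      rw [h1]; exact hB
    exact hB'.comp (e x) hA
  have h3 : HasFDerivAt (fun y : En n => y) (B.comp A) (e x) :=
    h2.congr_of_eventuallyEq ((TRN_inv hx hx').mono fun y hy => hy.symm)
  have h4 : B.comp A = ContinuousLinearMap.id ℝ (En n) := h3.unique (hasFDerivAt_id (e x))
  have h5 := congrArg (fun L : En n →L[ℝ] En n => L v) h4
  exact h5

theorem TRN : TRN_stmt.{u} := by
  intro n M _ _ _ e he e' he' x hx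
  have h1 := TRN_smooth he he' hx.1 hx.2
  have h2 := TRN_smooth he' he hx.2 hx.1
  refine ⟨h1, ?_⟩
  have hd1 : HasFDerivAt (fun y => e' (e.symm y)) (fderiv ℝ (fun y => e' (e.symm y)) (e x)) (e x) :=
    (h1.differentiableAt (by simp)).hasFDerivAt
  have hd2 : HasFDerivAt (fun y => e (e'.symm y)) (fderiv ℝ (fun y => e (e'.symm y)) (e' x)) (e' x) :=
    (h2.differentiableAt (by simp)).hasFDerivAt
  refine ⟨ContinuousLinearEquiv.equivOfInverse (fderiv ℝ (fun y => e' (e.symm y)) (e x))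
    (fderiv ℝ (fun y => e (e'.symm y)) (e' x)) (TRN_comp hx.1 hx.2 hd1 hd2)
    (TRN_comp hx.2 hx.1 hd2 hd1), ?_, ?_⟩
  · exact hd1
  · exact hd2

end Pool.Agent.CRO
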